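import Pool.Agent.Q205.EB.Basis

/-!
# The second Grzegorczyk class is a basis for punctual standardness

`E2` (`Pool.Agent.Q205.EB.Grz`) is the second Grzegorczyk class `ℰ²`: the smallest class of
functions `ℕⁿ → ℕ` containing zero, successor, projections, addition and multiplication, closed
under composition and bounded primitive recursion.

Idea of the proof. Let `A` be a punctual copy, `c` the isomorphism from the standard structure.
There is a function `r(k, z, y)` in `ℰ²` with the values `0`, `1`, which is `0` exactly if `y` bounds
a verification that the primitive recursive program number `z.1` gives the value `k` at `z`.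
Let `Q(z)` be the value of `r` on `A` at `c(k)`, `c(z)` and the element `z.2` of `A`, where
`k = c(1)`; this is a primitive recursive function, let `e` be its program. For an element `a` of
`A` let `z = (e, a)` and `n` the position of `a`. If `r(k, z, n) = 0` then it is verified that
`Q(z) = c(1)`, but `Q(z) = c(r(k, z, n)) = c(0)`, a contradiction. So `r(k, z, n) = 1` and
`Q(z) = c(1) = k`, but this is not verified within `n`; so `n` is smaller than the (primitive
recursive) bound for a verification. So the position of `a` is bounded by a primitive recursive
function of `a`, and `c⁻¹` is primitive recursive.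
-/

set_option autoImplicit false

namespace Pool.Agent.Results.MP_9dcafa_lc.GrzegorczykBasis

open Pool.Agent.Q205.EB

/-- A copy of `(ℕ, S)`, `S n = n + 1`, with domain `ℕ`: its successor function `succ` and the
isomorphism `iso` from `(ℕ, S)` to the copy (it is unique). -/
structure Copy where
  succ : ℕ → ℕ
  iso : ℕ ≃ ℕ
  iso_succ : ∀ n, iso (n + 1) = succ (iso n)

/-- The function `f^A` on the copy `A`. -/
def Copy.transfer (A : Copy) {n : ℕ} (f : (Fin n → ℕ) → ℕ) : (Fin n → ℕ) → ℕ :=
  fun a => A.iso (f (fun i => A.iso.symm (a i)))

/-- The copy is punctual: its successor function is primitive recursive. -/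
def Copy.Punctual (A : Copy) : Prop := Primrec A.succ

/-- `f` is primitive recursive on `A`. -/
def Copy.PrimrecOn (A : Copy) {n : ℕ} (f : (Fin n → ℕ) → ℕ) : Prop := Primrec (A.transfer f)

/-- The copy is punctually standard: exactly the primitive recursive functions are primitive
recursive on `A`. -/
def Copy.Standard (A : Copy) : Prop :=
  ∀ (n : ℕ) (f : (Fin n → ℕ) → ℕ), A.PrimrecOn f ↔ Primrec f

/-- The class `F` of functions on `ℕ` is a basis for punctual standardness. -/
def IsBasis (F : {n : ℕ} → ((Fin n → ℕ) → ℕ) → Prop) : Prop :=
  ∀ A : Copy, A.Punctual → (∀ (n : ℕ) (f : (Fin n → ℕ) → ℕ), F f → A.PrimrecOn f) → A.Standard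

theorem standard_of {A : Copy} (h1 : Primrec A.iso) (h2 : Primrec A.iso.symm) : A.Standard := by
  intro n f
  have hin : Primrec (fun a : Fin n → ℕ => fun i => A.iso.symm (a i)) :=
    Primrec.fin_curry.2 (h2.comp Primrec.fin_app)
  have hout : Primrec (fun a : Fin n → ℕ => fun i => A.iso (a i)) :=
    Primrec.fin_curry.2 (h1.comp Primrec.fin_app)
  constructor
  · intro h
    refine (h2.comp (h.comp hout)).of_eq fun a => ?_
    simp [Copy.transfer]
  · intro h
    exact h1.comp (h.comp hin)

theorem standard_of_rfun (A : Copy) (hA : A.Punctual) (h : A.PrimrecOn rfun) : A.Standard := by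
  have hs : Primrec (fun a => A.iso (A.iso.symm a + 1)) := by
    refine (show Primrec A.succ from hA).of_eq fun a => ?_
    rw [A.iso_succ, Equiv.apply_symm_apply]
  obtain ⟨h1, h2⟩ := main A.iso hs h
  exact standard_of h1 h2

/-- The second Grzegorczyk class `ℰ²` is a basis for punctual standardness. Moreover there is one
function in `ℰ²`, with three arguments and the values `0` and `1`, such that every punctual copy on
which this single function is primitive recursive is punctually standard. -/
theorem result : IsBasis E2 ∧
    ∃ r : (Fin 3 → ℕ) → ℕ, E2 r ∧ (∀ v, r v = 0 ∨ r v = 1) ∧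
      ∀ A : Copy, A.Punctual → A.PrimrecOn r → A.Standard :=
  ⟨fun A hA h => standard_of_rfun A hA (h 3 rfun rfun_e2),
    rfun, rfun_e2, rfun_values, standard_of_rfun⟩

end Pool.Agent.Results.MP_9dcafa_lc.GrzegorczykBasis
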